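import Mathlib
import Pool.Agent.Work.MP_017791_co.Defs
import Pool.Agent.Work.MP_017791_co.Core
import Pool.Agent.Work.MP_017791_co.Gap

/-!
# An obstruction to property (C) at the gaps of a lattice
-/

namespace Pool.Agent.Results.MP_017791_co.GapObstruction

open Pool.Agent.Work.MP_017791_co

universe u

theorem result :
    (∀ (P : Type u) [Lattice P], PropertyC' P →
      ∀ J K : Set P, IsChain (· ≤ ·) J → IsChain (· ≤ ·) K →
        J.WellFoundedOn (· < ·) → K.WellFoundedOn (· > ·) → (J ∪ K).Nonempty →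
        (∀ j ∈ J, ∀ k ∈ K, j ≤ k) → (¬ ∃ z, (∀ j ∈ J, j ≤ z) ∧ (∀ k ∈ K, z ≤ k)) →
        ∀ x : P,
          (∃ v, IsGreatest {w | w ∈ J ∪ K ∧ w ≤ x ⊔ v} v) ∧
          (∃ v, IsLeast {w | w ∈ J ∪ K ∧ x ⊓ v ≤ w} v) ∧
          (PropertyC P → ∃ v, IsGreatest {w | w ∈ J ∪ K ∧ w ≤ x ⊔ v} v ∧
            IsLeast {w | w ∈ J ∪ K ∧ x ⊓ v ≤ w} v)) ∧
    ¬ PropertyC' (ℝ × ℝ) := by
  refine ⟨?_, not_propertyC'_real⟩
  intro P _ hP J K hJ hK hJw hKw hne hJK hgap x
  have hret := isRetract_gap hJ hK hJw hKw hJK hgap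
  have hpair := (propertyC'_iff.1 hP) _ hne hret
  exact ⟨exists_greatest hpair x, exists_least hpair x,
    fun hC => exists_both ((propertyC_iff.1 hC) _ hne hret) x⟩

end Pool.Agent.Results.MP_017791_co.GapObstruction
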