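import Mathlib
import Pool.Agent.Work.MP_017791_co.Defs
import Pool.Agent.Work.MP_017791_co.Core
import Pool.Agent.Work.MP_017791_co.Core2

/-!
# Which partially ordered sets have property (C)?

Every poset with property (C) is a modular lattice.  Conversely a modular lattice has property (C)
as soon as its gaps are tame.  All finite posets, all posets in which every subset has a least
upper bound, all chains, and all lattices whose intervals satisfy both chain conditions are tame,
so within these classes property (C) holds exactly for the modular lattices.
-/

namespace Pool.Agent.Results.MP_017791_co.ModularLattices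

open Pool.Agent.Work.MP_017791_co

universe u

theorem result (P : Type u) [PartialOrder P] :
    (PropertyC P → IsModularLatticeOrder P) ∧
    (Tame P → (PropertyC P ↔ IsModularLatticeOrder P)) ∧
    (Finite P → (PropertyC P ↔ IsModularLatticeOrder P)) ∧
    ((∀ S : Set P, ∃ s, IsLUB S s) → (PropertyC P ↔ IsModularLatticeOrder P)) ∧
    ((∀ a b : P, a ≤ b ∨ b ≤ a) → PropertyC P) ∧
    ((∀ a b : P, WellFoundedGT (Set.Icc a b) ∧ WellFoundedLT (Set.Icc a b)) →
      (PropertyC P ↔ IsModularLatticeOrder P)) := by
  rename_i i
  have nec : PropertyC P → IsModularLatticeOrder P := by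
    intro h
    obtain ⟨L, hL⟩ := isLatticeOrder h.weaken
    subst hL
    exact ⟨L, rfl, isModularLattice h⟩
  have suf : Tame P → IsModularLatticeOrder P → PropertyC P := by
    intro hT h
    obtain ⟨L, hL, hm⟩ := h
    subst hL
    exact propertyC_of_tame hT
  refine ⟨nec, fun hT => ⟨nec, suf hT⟩, fun hF => ⟨nec, suf tame_of_finite⟩,
    fun hc => ⟨nec, suf (tame_of_complete hc)⟩, fun hc => ?_, fun hI => ⟨nec, fun h => ?_⟩⟩
  · classical
    have ht : Tame P := tame_of_chain hc
    apply suf ht
    let L : LinearOrder P := { i with
      le_total := hc
      toDecidableLE := Classical.decRel _ }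
    have hL : L.toPartialOrder = i := rfl
    exact ⟨L.toLattice, rfl, inferInstance⟩
  · refine suf ?_ h
    obtain ⟨L, hL, hm⟩ := h
    subst hL
    exact tame_of_intervals hI

end Pool.Agent.Results.MP_017791_co.ModularLattices
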