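import Mathlib
import Pool.Agent.Work.MP_017791_co.Defs
import Pool.Agent.Work.MP_017791_co.Core
import Pool.Agent.Work.MP_017791_co.Core2

/-!
# The variant of property (C) in which the two operators need not commute
-/

namespace Pool.Agent.Results.MP_017791_co.NonCommuting

open Pool.Agent.Work.MP_017791_co

universe u

theorem result (P : Type u) [PartialOrder P] :
    (PropertyC' P → IsLatticeOrder P) ∧
    (Finite P → (PropertyC' P ↔ IsLatticeOrder P)) := by
  rename_i i
  refine ⟨isLatticeOrder, fun hF => ⟨isLatticeOrder, fun h => ?_⟩⟩
  obtain ⟨L, hL⟩ := h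
  subst hL
  rcases isEmpty_or_nonempty P with hE | hE
  · rw [propertyC'_iff]
    rintro R ⟨x, -⟩
    exact (hE.false x).elim
  · exact propertyC'_of_complete (fun S => exists_lub_of_finite S)

end Pool.Agent.Results.MP_017791_co.NonCommuting
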